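import Mathlib
import Pool.Agent.H65.Sanov

namespace Pool.Agent.Results.MP_d3e052_al.NotFG
open Pool.Agent.H65.Sanov FreeGroup

/-- auto-fixed closure -/
def aCl {G : Type} [Group G] (H : Subgroup G) : Subgroup G :=
  ⨅ φ ∈ {φ : G ≃* G | ∀ h ∈ H, φ h = h}, φ.toMonoidHom.eqLocus (MonoidHom.id G)

/-- endo-fixed closure -/
def eCl {G : Type} [Group G] (H : Subgroup G) : Subgroup G :=
  ⨅ φ ∈ {φ : G →* G | ∀ h ∈ H, φ h = h}, φ.eqLocus (MonoidHom.id G)

/-- the group `ℤ^m × F_n` -/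
abbrev Grp (m n : ℕ) : Type := Multiplicative (Fin m → ℤ) × FreeGroup (Fin n)

abbrev F := FreeGroup (Fin 2)
def a : F := of 1
def b : F := of 0

lemma comm_b (u : F) (h : u * b = b * u) : rho u 1 0 = 0 ∧ rho u 0 0 = rho u 1 1 := by
  have h1 := congrArg (fun g => rho g 0 0) h
  have h2 := congrArg (fun g => rho g 0 1) h
  simp [b, rho, A, Matrix.mul_apply, Fin.sum_univ_two] at h1 h2
  simp only [rho, A]
  constructor <;> linarith

lemma rigid (w : F) (h1 : w * b * w⁻¹ = a * b * a⁻¹)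
    (h2 : w * w * b * (w * w)⁻¹ = a * a * b * (a * a)⁻¹) : w = a := by
  obtain ⟨u, rfl⟩ : ∃ u, w = a * u := ⟨a⁻¹ * w, by group⟩
  have k1 : u * b = b * u := by
    have : u * b = a⁻¹ * (a * u * b * (a * u)⁻¹) * a * u := by group
    rw [this, h1]; group
  have k2 : (a⁻¹ * u * a) * b = b * (a⁻¹ * u * a) := by
    have e : u * b * u⁻¹ = b := by rw [k1]; group
    have : (a⁻¹ * u * a) * b = a⁻¹ * a⁻¹ * (a * u * (a * u) * b * (a * u * (a * u))⁻¹) *
        (a * u * a) := by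
      conv_lhs => rw [← e]
      group
    rw [this, h2]; group
  obtain ⟨p1, p2⟩ := comm_b u k1
  obtain ⟨q1, -⟩ := comm_b _ k2
  have : u = 1 := by
    refine eq_one_of_offdiag u ?_ p1
    simp [a, rho, B, Matrix.mul_apply, Fin.sum_univ_two, Matrix.SpecialLinearGroup.coe_inv,
      Matrix.adjugate_fin_two, Matrix.vecMul, dotProduct] at q1
    simp only [rho, B] at p1 p2 ⊢
    linarith
  simp [this]

def e : F →* Multiplicative (Fin 1 → ℤ) := lift ![1, Multiplicative.ofAdd fun _ => 1]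

def α : Equiv.Perm (ℤ × ℤ) := Equiv.addRight (1, 0)
def β : Equiv.Perm (ℤ × ℤ) where
  toFun x := (x.1, x.2 + if x.1 = 0 then 1 else 0)
  invFun x := (x.1, x.2 - if x.1 = 0 then 1 else 0)
  left_inv x := by simp
  right_inv x := by simp
def θ : F →* Equiv.Perm (ℤ × ℤ) := lift ![β, α]

lemma far (g : F) : ∃ N : ℤ, ∀ i ≥ N, ∀ j, θ g (i, j) = (i + (e g).toAdd 0, j) := by
  induction g using FreeGroup.induction_on with
  | C1 => exact ⟨0, by simp⟩
  | of x =>
    refine ⟨1, fun i hi j => ?_⟩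
    have : i ≠ 0 := by omega
    fin_cases x <;> simp [θ, e, α, β, this]
  | inv_of x _ =>
    refine ⟨1, fun i hi j => ?_⟩
    have : i ≠ 0 := by omega
    fin_cases x <;> simp [θ, e, α, β, this, Equiv.Perm.inv_def]
  | mul x y hx hy =>
    obtain ⟨M, hM⟩ := hx
    obtain ⟨N, hN⟩ := hy
    refine ⟨max N (M - (e y).toAdd 0), fun i hi j => ?_⟩
    rw [_root_.map_mul, Equiv.Perm.mul_apply, hN i (by omega), hM _ (by omega)]
    simp; ring

lemma α_pow (n : ℕ) (x : ℤ × ℤ) : (α ^ n) x = (x.1 + n, x.2) := by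
  induction n with
  | zero => simp
  | succ n ih => rw [pow_succ', Equiv.Perm.mul_apply, ih]; simp [α]; ring

lemma notFG (K : Subgroup (Grp 1 2)) (h1 : ∀ g ∈ K, e g.2 = 1)
    (h2 : ∀ n : ℕ, ((1, a ^ n * b * (a ^ n)⁻¹) : Grp 1 2) ∈ K) : ¬ K.FG := by
  rintro ⟨S, rfl⟩
  choose N hN using far
  obtain ⟨n, hn⟩ : ∃ n : ℕ, ∀ s ∈ S, N s.2 ≤ n := by
    obtain ⟨M, hM⟩ := (S.image fun s => N s.2).bddAbove
    exact ⟨M.toNat, fun s hs => (hM (by simpa using ⟨s.1, s.2, hs, rfl⟩)).trans (Int.self_le_toNat M)⟩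
  have key : ∀ g ∈ Subgroup.closure (S : Set (Grp 1 2)), θ g.2 ((n : ℤ), 0) = ((n : ℤ), 0) := by
    intro g hg
    have : Subgroup.closure (S : Set (Grp 1 2)) ≤ ((MulAction.stabilizer (Equiv.Perm (ℤ × ℤ))
        ((n : ℤ), (0 : ℤ))).comap θ).comap (MonoidHom.snd _ _) := by
      rw [Subgroup.closure_le]
      intro s hs
      have := hN s.2 n (hn s hs) 0
      rw [h1 s (Subgroup.subset_closure hs)] at this
      simpa using this
    exact this hg
  have := key _ (h2 n)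
  have e1 : (α ^ n)⁻¹ ((n : ℤ), (0 : ℤ)) = (0, 0) := by
    rw [Equiv.Perm.inv_eq_iff_eq, α_pow]; simp
  simp only [_root_.map_mul, _root_.map_inv, map_pow, θ, a, b, lift_apply_of, Equiv.Perm.mul_apply] at this
  change (α ^ n) (β ((α ^ n)⁻¹ _)) = _ at this
  rw [e1, α_pow] at this
  simp [β] at this

def φ0 : Grp 1 2 ≃* Grp 1 2 where
  toFun g := (g.1 * e g.2, g.2)
  invFun g := (g.1 * (e g.2)⁻¹, g.2)
  left_inv g := by simp
  right_inv g := by simp
  map_mul' g h := by simp [mul_mul_mul_comm]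

theorem result : ∃ (m n : ℕ) (H : Subgroup (Grp m n)), H.FG ∧ ¬ (aCl H).FG ∧ ¬ (eCl H).FG := by
  let S : Set (Grp 1 2) := {(1, b), (1, a * b * a⁻¹), (1, a * a * b * (a * a)⁻¹)}
  have hφ : ∀ h ∈ Subgroup.closure S, φ0 h = h := by
    intro h hh
    have : Subgroup.closure S ≤ φ0.toMonoidHom.eqLocus (MonoidHom.id _) := by
      rw [Subgroup.closure_le]
      rintro x (rfl | rfl | rfl) <;> simp [φ0, e, a, b, MonoidHom.eqLocus]
    exact this hh
  have hle : eCl (Subgroup.closure S) ≤ aCl (Subgroup.closure S) := by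
    intro g hg
    simp only [aCl, eCl, Subgroup.mem_iInf] at hg ⊢
    exact fun φ h => hg φ.toMonoidHom h
  have h1 : ∀ g ∈ aCl (Subgroup.closure S), e g.2 = 1 := by
    intro g hg
    simp only [aCl, Subgroup.mem_iInf] at hg
    have : φ0 g = g := hg φ0 hφ
    simpa [φ0] using congrArg Prod.fst this
  have h2 : ∀ n : ℕ, ((1, a ^ n * b * (a ^ n)⁻¹) : Grp 1 2) ∈ eCl (Subgroup.closure S) := by
    intro n
    simp only [eCl, Subgroup.mem_iInf]
    intro φ h
    have hb : φ (1, b) = (1, b) := h _ (Subgroup.subset_closure (by simp [S]))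
    have k1 := h (1, a * b * a⁻¹) (Subgroup.subset_closure (by simp [S]))
    have k2 := h (1, a * a * b * (a * a)⁻¹) (Subgroup.subset_closure (by simp [S]))
    have e1 : ((1, a * b * a⁻¹) : Grp 1 2) = (1, a) * (1, b) * (1, a)⁻¹ := by simp
    have e2 : ((1, a * a * b * (a * a)⁻¹) : Grp 1 2) =
        (1, a) * (1, a) * (1, b) * ((1, a) * (1, a))⁻¹ := by simp
    have e3 : ((1, a ^ n * b * (a ^ n)⁻¹) : Grp 1 2) = (1, a) ^ n * (1, b) * ((1, a) ^ n)⁻¹ := by
      simp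
    rw [e1] at k1; rw [e2] at k2
    simp only [_root_.map_mul, _root_.map_inv, hb] at k1 k2
    have hw : (φ (1, a)).2 = a := rigid _ (congrArg Prod.snd k1) (congrArg Prod.snd k2)
    change φ _ = _
    rw [e3]
    simp only [_root_.map_mul, _root_.map_inv, map_pow, hb]
    ext1 <;> simp [hw]
  exact ⟨1, 2, Subgroup.closure S, ⟨(Set.toFinite S).toFinset, by simp⟩,
    notFG _ h1 fun n => hle (h2 n), notFG _ (fun g hg => h1 g (hle hg)) h2⟩

end Pool.Agent.Results.MP_d3e052_al.NotFG
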